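import Mathlib

/-! Points at which few functions are independent even up to roots of unity. -/

set_option autoImplicit false

namespace Pool.Agent.R163.FT

open Module

variable {K : Type*} [Field K] {ι Θ : Type*} [Fintype ι]

/-- The value at `θ` of the combination with constant term `a.1` and coefficients `a.2`. -/
def val (φ : ι → Θ → K) (θ : Θ) : (K × (ι → K)) →ₗ[K] K where
  toFun a := a.1 + ∑ j, a.2 j * φ j θ
  map_add' a b := by
    simp only [Prod.fst_add, Prod.snd_add, Pi.add_apply, add_mul, Finset.sum_add_distrib]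
    ring
  map_smul' r a := by
    simp only [Prod.smul_fst, Prod.smul_snd, Pi.smul_apply, smul_eq_mul, RingHom.id_apply,
      mul_add, Finset.mul_sum, mul_assoc]

theorem val_apply (φ : ι → Θ → K) (θ : Θ) (a : K × (ι → K)) :
    val φ θ a = a.1 + ∑ j, a.2 j * φ j θ := rfl

/-- Finitely many nontrivial combinations are nonzero at a common point. -/
def Dense (φ : ι → Θ → K) : Prop :=
  ∀ B : Set (K × (ι → K)), B.Finite → (∀ b ∈ B, b.2 ≠ 0) → ∃ θ, ∀ b ∈ B, val φ θ b ≠ 0

theorem points (φ : ι → Θ → K) (hφ : Dense φ) (z : (K × (ι → K)) →ₗ[K] K) (U : Set K)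
    (hU : U.Finite) :
    ∀ (d : ℕ) (S : Set (Submodule K (K × (ι → K)))), S.Finite → (∀ W ∈ S, finrank K W ≤ d) →
      ∃ δ : Fin d → Θ, ∀ W ∈ S, ∀ u : Fin d → K, (∀ i, u i ∈ U) → ∀ a ∈ W,
        (∀ i, val φ (δ i) a = u i * z a) → a.2 = 0 := by
  classical
  intro d
  induction d with
  | zero =>
    intro S _ hS
    refine ⟨Fin.elim0, fun W hW u _ a ha _ => ?_⟩
    have h0 : finrank K W = 0 := Nat.le_zero.1 (hS W hW)
    have h1 : W = ⊥ := Submodule.finrank_eq_zero.1 h0
    rw [h1, Submodule.mem_bot] at ha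
    rw [ha]; rfl
  | succ d ih =>
    intro S hSf hS
    -- choose a vector in each `W` that is not contained in the line of constants
    let bad : Set (Submodule K (K × (ι → K))) := {W | W ∈ S ∧ ∃ a ∈ W, a.2 ≠ 0}
    have hbad : bad.Finite := hSf.subset fun W hW => hW.1
    choose! w hw hw2 using fun W (hW : W ∈ bad) => hW.2
    let B : Set (K × (ι → K)) :=
      (fun q : Submodule K (K × (ι → K)) × K => ((w q.1).1 - q.2 * z (w q.1), (w q.1).2)) ''
        (bad ×ˢ U)
    have hBf : B.Finite := (hbad.prod hU).image _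
    obtain ⟨θ, hθ⟩ := hφ B hBf (by
      rintro b ⟨⟨W, u⟩, ⟨hW, hu⟩, rfl⟩
      exact hw2 W hW)
    have hθ' : ∀ W ∈ bad, ∀ u ∈ U, val φ θ (w W) ≠ u * z (w W) := by
      intro W hW u hu h
      apply hθ _ ⟨(W, u), ⟨hW, hu⟩, rfl⟩
      rw [val_apply] at h ⊢
      simp only
      linear_combination h
    let S' : Set (Submodule K (K × (ι → K))) :=
      (fun q : Submodule K (K × (ι → K)) × K => q.1 ⊓ LinearMap.ker (val φ θ - q.2 • z)) ''
        (bad ×ˢ U)
    have hS'f : S'.Finite := (hbad.prod hU).image _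
    have hS' : ∀ W ∈ S', finrank K W ≤ d := by
      rintro W' ⟨⟨W, u⟩, ⟨hW, hu⟩, rfl⟩
      have hlt : W ⊓ LinearMap.ker (val φ θ - u • z) < W := by
        refine lt_of_le_of_ne inf_le_left fun h => ?_
        have h1 : w W ∈ W ⊓ LinearMap.ker (val φ θ - u • z) := by
          rw [h]; exact hw W hW
        have h2 := (Submodule.mem_inf.1 h1).2
        rw [LinearMap.mem_ker, LinearMap.sub_apply, LinearMap.smul_apply, smul_eq_mul,
          sub_eq_zero] at h2
        exact hθ' W hW u hu h2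
      have h1 := Submodule.finrank_lt_finrank_of_lt hlt
      have h2 := hS W hW.1
      simp only
      omega
    obtain ⟨δ, hδ⟩ := ih S' hS'f hS'
    refine ⟨Fin.cons θ δ, fun W hW u hu a ha h => ?_⟩
    by_contra hne
    have hWb : W ∈ bad := ⟨hW, a, ha, hne⟩
    apply hne
    refine hδ _ ⟨(W, u 0), ⟨hWb, hu 0⟩, rfl⟩ (fun i => u i.succ) (fun i => hu _) a ?_ ?_
    · refine Submodule.mem_inf.2 ⟨ha, ?_⟩
      rw [LinearMap.mem_ker, LinearMap.sub_apply, LinearMap.smul_apply, smul_eq_mul, sub_eq_zero]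
      have := h 0
      rwa [Fin.cons_zero] at this
    · intro i
      have := h i.succ
      rwa [Fin.cons_succ] at this

/-- The points used below. -/
theorem exists_points (φ : ι → Θ → K) (hφ : Dense φ) (θ₀ : Θ) {n ν : ℕ} (hν : 0 < ν)
    (hn : Fintype.card ι + 2 ≤ n) :
    ∃ δ : Fin n → Θ, ∀ a : K × (ι → K),
      (∀ i j, val φ (δ i) a ^ ν = val φ (δ j) a ^ ν) → a.2 = 0 := by
  classical
  obtain ⟨δ, hδ⟩ := points φ hφ (val φ θ₀) {u : K | u ^ ν = 1} (by
      refine Set.Finite.subset (Polynomial.nthRoots ν (1 : K)).toFinset.finite_toSet ?_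
      intro u hu
      rw [Finset.mem_coe, Multiset.mem_toFinset, Polynomial.mem_nthRoots hν]
      exact hu) (Fintype.card ι + 1) {⊤} (Set.finite_singleton _) (by
      intro W hW
      rw [Set.mem_singleton_iff] at hW
      rw [hW, finrank_top, Module.finrank_prod, Module.finrank_self,
        Module.finrank_fintype_fun_eq_card]
      omega)
  refine ⟨fun i => if h : 0 < (i : ℕ) ∧ (i : ℕ) - 1 < Fintype.card ι + 1 then
    δ ⟨(i : ℕ) - 1, h.2⟩ else θ₀, fun a ha => ?_⟩
  have key : ∀ i : Fin (Fintype.card ι + 1), val φ (δ i) a ^ ν = val φ θ₀ a ^ ν := by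
    intro i
    have h := ha ⟨i + 1, by omega⟩ ⟨0, by omega⟩
    have h1 : (0 < ((⟨i + 1, by omega⟩ : Fin n) : ℕ) ∧
      ((⟨i + 1, by omega⟩ : Fin n) : ℕ) - 1 < Fintype.card ι + 1) := by
      simp only
      omega
    have h2 : ¬ (0 < ((⟨0, by omega⟩ : Fin n) : ℕ) ∧
      ((⟨0, by omega⟩ : Fin n) : ℕ) - 1 < Fintype.card ι + 1) := by
      simp
    beta_reduce at h
    rw [dif_pos h1, dif_neg h2] at h
    have h3 : (⟨((⟨i + 1, by omega⟩ : Fin n) : ℕ) - 1, h1.2⟩ : Fin (Fintype.card ι + 1)) = i := by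
      ext; simp
    rwa [h3] at h
  refine hδ ⊤ (Set.mem_singleton _)
    (fun i => if val φ θ₀ a = 0 then 1 else val φ (δ i) a / val φ θ₀ a) ?_ a Submodule.mem_top ?_
  · intro i
    change (if val φ θ₀ a = 0 then (1 : K) else val φ (δ i) a / val φ θ₀ a) ^ ν = 1
    split_ifs with h
    · exact one_pow ν
    · rw [div_pow, key i, div_self (pow_ne_zero _ h)]
  · intro i
    split_ifs with h
    · rw [h, mul_zero]
      have := key i
      rw [h, zero_pow hν.ne'] at this
      exact pow_eq_zero_iff hν.ne' |>.1 this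
    · rw [div_mul_cancel₀ _ h]

end Pool.Agent.R163.FT
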