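import Pool.Agent.R163.FT.Core
import Pool.Agent.R163.FT.Points

/-! Few terms with arbitrary coefficient functions: specialisation along a line through a tuple
of diagonal matrices. -/

set_option autoImplicit false

namespace Pool.Agent.R163.FT

open Polynomial

variable {K σ ι : Type*} [Field K] {n : ℕ}

/-- The commutative image of an element of the free algebra. -/
noncomputable def ab : FreeAlgebra K σ →ₐ[K] MvPolynomial σ K :=
  FreeAlgebra.lift K MvPolynomial.X

/-- The matrices with prescribed entries. -/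
def mat {R : Type*} (P : σ × Fin n × Fin n → R) (s : σ) : Matrix (Fin n) (Fin n) R :=
  Matrix.of fun i j => P (s, i, j)

theorem map_lift {R S : Type*} [CommRing R] [CommRing S] [Algebra K R] [Algebra K S]
    (f : R →ₐ[K] S) (P : σ × Fin n × Fin n → R) (g : FreeAlgebra K σ) :
    f.mapMatrix (FreeAlgebra.lift K (mat P) g) =
      FreeAlgebra.lift K (mat fun q => f (P q)) g := by
  have h : f.mapMatrix.comp (FreeAlgebra.lift K (mat P)) =
      FreeAlgebra.lift K (mat fun q => f (P q)) := by
    apply FreeAlgebra.hom_ext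
    funext s
    ext i j
    simp [mat]
  exact DFunLike.congr_fun h g

/-- The entries of the diagonal matrices with entries `δ i s`. -/
def dg (δ : Fin n → σ → K) (q : σ × Fin n × Fin n) : K :=
  if q.2.1 = q.2.2 then δ q.2.1 q.1 else 0

theorem lift_dg (δ : Fin n → σ → K) (g : FreeAlgebra K σ) :
    FreeAlgebra.lift K (mat (dg δ)) g =
      Matrix.diagonal fun i => MvPolynomial.eval (δ i) (ab g) := by
  have h : FreeAlgebra.lift K (mat (dg δ)) = (Matrix.diagonalAlgHom (n := Fin n) (α := K) K).comp
      (AlgHom.pi fun i =>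
        (MvPolynomial.aeval (δ i)).comp (ab : FreeAlgebra K σ →ₐ[K] MvPolynomial σ K)) := by
    apply FreeAlgebra.hom_ext
    funext s
    ext i j
    by_cases hij : i = j
    · subst hij
      simp [mat, dg, ab]
    · simp [mat, dg, ab, hij]
  rw [h]
  ext i j
  by_cases hij : i = j
  · subst hij
    simp [MvPolynomial.aeval_eq_eval]
  · simp [hij]

section

variable [Infinite K]

theorem isSc_of_eval (hn : 0 < n) (M : Matrix (Fin n) (Fin n) K[X])
    (h : ∀ t : K, IsSc ((Polynomial.aeval t : K[X] →ₐ[K] K).mapMatrix M)) : IsSc M := by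
  rw [isSc_iff hn]
  have h' := fun t => (isSc_iff hn _).1 (h t)
  refine ⟨fun i j hij => ?_, fun i j => ?_⟩
  · apply Polynomial.funext
    intro t
    have := (h' t).1 i j hij
    simpa using this
  · apply Polynomial.funext
    intro t
    have := (h' t).2 i j
    simpa using this

theorem dense_of_indep [Fintype ι] (g : ι → MvPolynomial σ K)
    (hg : ∀ (c₀ : K) (c : ι → K), MvPolynomial.C c₀ + ∑ j, c j • g j = 0 → c = 0) :
    Dense fun (j : ι) (θ : σ → K) => MvPolynomial.eval θ (g j) := by
  classical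
  intro B hB hne
  have hev : ∀ (b : K × (ι → K)) (θ : σ → K),
      MvPolynomial.eval θ (MvPolynomial.C b.1 + ∑ j, b.2 j • g j) =
        val (fun (j : ι) (θ : σ → K) => MvPolynomial.eval θ (g j)) θ b := by
    intro b θ
    rw [val_apply, map_add, map_sum, MvPolynomial.eval_C]
    simp [MvPolynomial.smul_eval]
  have hprod : ∏ b ∈ hB.toFinset, (MvPolynomial.C b.1 + ∑ j, b.2 j • g j) ≠ 0 := by
    rw [Finset.prod_ne_zero_iff]
    intro b hb h0
    exact hne b (hB.mem_toFinset.1 hb) (hg _ _ h0)
  have hex : ∃ θ : σ → K, MvPolynomial.eval θ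
      (∏ b ∈ hB.toFinset, (MvPolynomial.C b.1 + ∑ j, b.2 j • g j)) ≠ 0 := by
    by_contra hcon
    push Not at hcon
    apply hprod
    apply MvPolynomial.funext
    intro θ
    rw [hcon θ, map_zero]
  obtain ⟨θ, hθ⟩ := hex
  rw [map_prod, Finset.prod_ne_zero_iff] at hθ
  refine ⟨θ, fun b hb => ?_⟩
  rw [← hev]
  exact hθ b (hB.mem_toFinset.2 hb)

/-- Few terms: all the coefficients of the non-constant terms vanish. -/
theorem coeff_zero [Fintype ι] (hcard : Fintype.card ι + 2 ≤ n) (g : ι → FreeAlgebra K σ)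
    (hg : ∀ (c₀ : K) (c : ι → K), MvPolynomial.C c₀ + ∑ j, c j • ab (g j) = 0 → c = 0)
    (ν : ℕ) (hν : 0 < ν) (γ₀ : MvPolynomial (σ × Fin n × Fin n) K)
    (γ : ι → MvPolynomial (σ × Fin n × Fin n) K)
    (h : ∀ P : σ × Fin n × Fin n → K,
      IsSc ((MvPolynomial.eval P γ₀ • (1 : Matrix (Fin n) (Fin n) K) +
        ∑ j, MvPolynomial.eval P (γ j) • FreeAlgebra.lift K (mat P) (g j)) ^ ν)) :
    ∀ j, γ j = 0 := by
  intro j₀
  apply MvPolynomial.funext
  intro P
  rw [map_zero]
  have hn : 0 < n := by omega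
  obtain ⟨δ, hδ⟩ := exists_points _ (dense_of_indep (fun j => ab (g j)) hg) (0 : σ → K) hν hcard
  let L : σ × Fin n × Fin n → K[X] := fun q => C (dg δ q) + X * C (P q - dg δ q)
  let lam : MvPolynomial (σ × Fin n × Fin n) K →ₐ[K] K[X] := MvPolynomial.aeval L
  have hL : ∀ (t : K), (fun q => (Polynomial.aeval t : K[X] →ₐ[K] K) (L q)) =
      fun q => dg δ q + t * (P q - dg δ q) := by
    intro t
    funext q
    simp [L]
  have hlam : ∀ (t : K) (c : MvPolynomial (σ × Fin n × Fin n) K),
      (Polynomial.aeval t : K[X] →ₐ[K] K) (lam c) =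
        MvPolynomial.eval (fun q => dg δ q + t * (P q - dg δ q)) c := by
    intro t c
    have h1 : (Polynomial.aeval t : K[X] →ₐ[K] K).comp lam =
        MvPolynomial.aeval (fun q => dg δ q + t * (P q - dg δ q)) := by
      apply MvPolynomial.algHom_ext
      intro q
      rw [AlgHom.comp_apply, MvPolynomial.aeval_X, MvPolynomial.aeval_X]
      exact congrFun (hL t) q
    have h2 := DFunLike.congr_fun h1 c
    rw [AlgHom.comp_apply] at h2
    rw [h2, MvPolynomial.aeval_eq_eval]
  have hcore : (fun j => lam (γ j)) = 0 := by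
    refine core hn ν hν (fun j => FreeAlgebra.lift K (mat L) (g j))
      (fun j i => MvPolynomial.eval (δ i) (ab (g j))) ?_ ?_ (lam γ₀) _ ?_
    · intro j
      have h1 : ev0 K n (FreeAlgebra.lift K (mat L) (g j)) =
          (Polynomial.aeval (0 : K) : K[X] →ₐ[K] K).mapMatrix
            (FreeAlgebra.lift K (mat L) (g j)) := by
        ext i k
        simp [ev0, Polynomial.coeff_zero_eq_eval_zero]
      rw [h1, map_lift, hL 0]
      have h2 : (fun q : σ × Fin n × Fin n => dg δ q + 0 * (P q - dg δ q)) = dg δ := by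
        funext q
        ring
      rw [h2, lift_dg]
    · intro c0 c hc
      exact hδ (c0, c) hc
    · apply isSc_of_eval hn
      intro t
      have h1 : (Polynomial.aeval t : K[X] →ₐ[K] K).mapMatrix
          ((lam γ₀ • (1 : Matrix (Fin n) (Fin n) K[X]) +
            ∑ j, lam (γ j) • FreeAlgebra.lift K (mat L) (g j)) ^ ν) =
          (MvPolynomial.eval (fun q => dg δ q + t * (P q - dg δ q)) γ₀ •
            (1 : Matrix (Fin n) (Fin n) K) +
          ∑ j, MvPolynomial.eval (fun q => dg δ q + t * (P q - dg δ q)) (γ j) •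
            FreeAlgebra.lift K (mat fun q => dg δ q + t * (P q - dg δ q)) (g j)) ^ ν := by
        have hsm : ∀ (r : K[X]) (M : Matrix (Fin n) (Fin n) K[X]),
            (Polynomial.aeval t : K[X] →ₐ[K] K).mapMatrix (r • M) =
              (Polynomial.aeval t : K[X] →ₐ[K] K) r •
                (Polynomial.aeval t : K[X] →ₐ[K] K).mapMatrix M := by
          intro r M
          ext i k
          simp
        rw [map_pow, map_add, map_sum, hsm, map_one, hlam]
        congr 2
        refine Finset.sum_congr rfl fun j _ => ?_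
        rw [hsm, hlam, map_lift, hL]
      rw [h1]
      exact h _
  have h3 := hlam 1 (γ j₀)
  rw [congrFun hcore j₀, Pi.zero_apply, map_zero] at h3
  have h4 : (fun q : σ × Fin n × Fin n => dg δ q + 1 * (P q - dg δ q)) = P := by
    funext q
    ring
  rw [h4] at h3
  exact h3.symm

/-- The same for a polynomial `p`, some nonzero multiple of which has few terms. -/
theorem scalar_of_few [Fintype ι] (hcard : Fintype.card ι + 2 ≤ n) (g : ι → FreeAlgebra K σ)
    (hg : ∀ (c₀ : K) (c : ι → K), MvPolynomial.C c₀ + ∑ j, c j • ab (g j) = 0 → c = 0)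
    (ν : ℕ) (hν : 0 < ν) (p : FreeAlgebra K σ) (d γ₀ : MvPolynomial (σ × Fin n × Fin n) K)
    (hd : d ≠ 0) (γ : ι → MvPolynomial (σ × Fin n × Fin n) K)
    (hp : ∀ P : σ × Fin n × Fin n → K, MvPolynomial.eval P d • FreeAlgebra.lift K (mat P) p =
      MvPolynomial.eval P γ₀ • (1 : Matrix (Fin n) (Fin n) K) +
        ∑ j, MvPolynomial.eval P (γ j) • FreeAlgebra.lift K (mat P) (g j))
    (h : ∀ P : σ × Fin n × Fin n → K, IsSc ((FreeAlgebra.lift K (mat P) p) ^ ν)) :
    (∀ j, γ j = 0) ∧ ∀ P : σ × Fin n × Fin n → K, IsSc (FreeAlgebra.lift K (mat P) p) := by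
  have hn : 0 < n := by omega
  have hγ : ∀ j, γ j = 0 := by
    refine coeff_zero hcard g hg ν hν γ₀ γ fun P => ?_
    rw [← hp P, _root_.smul_pow]
    obtain ⟨s, hs⟩ := h P
    exact ⟨(MvPolynomial.eval P d) ^ ν * s, by rw [hs, smul_smul]⟩
  refine ⟨hγ, ?_⟩
  -- the generic value of `p`
  have hgen : ∀ (P : σ × Fin n × Fin n → K) (i j : Fin n), FreeAlgebra.lift K (mat P) p i j =
      MvPolynomial.eval P (FreeAlgebra.lift K (mat MvPolynomial.X) p i j) := by
    intro P i j
    have h1 := map_lift (MvPolynomial.aeval P : MvPolynomial (σ × Fin n × Fin n) K →ₐ[K] K)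
      MvPolynomial.X p
    have h2 : (fun q => (MvPolynomial.aeval P : MvPolynomial (σ × Fin n × Fin n) K →ₐ[K] K)
        (MvPolynomial.X q)) = P := by
      funext q
      rw [MvPolynomial.aeval_X]
    rw [h2] at h1
    rw [← h1]
    simp [MvPolynomial.aeval_eq_eval]
  have hsc : ∀ P : σ × Fin n × Fin n → K,
      MvPolynomial.eval P d • FreeAlgebra.lift K (mat P) p =
        MvPolynomial.eval P γ₀ • (1 : Matrix (Fin n) (Fin n) K) := by
    intro P
    rw [hp P]
    simp [hγ]
  have hoff : ∀ i j : Fin n, i ≠ j →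
      (FreeAlgebra.lift K (mat MvPolynomial.X) p : Matrix (Fin n) (Fin n)
        (MvPolynomial (σ × Fin n × Fin n) K)) i j = 0 := by
    intro i j hij
    have : d * (FreeAlgebra.lift K (mat MvPolynomial.X) p : Matrix (Fin n) (Fin n)
        (MvPolynomial (σ × Fin n × Fin n) K)) i j = 0 := by
      apply MvPolynomial.funext
      intro P
      rw [map_mul, ← hgen, map_zero]
      have := congrFun (congrFun (hsc P) i) j
      rw [Matrix.smul_apply, Matrix.smul_apply, Matrix.one_apply_ne hij, smul_zero,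
        smul_eq_mul] at this
      exact this
    exact (mul_eq_zero.1 this).resolve_left hd
  have hdiag : ∀ i j : Fin n,
      (FreeAlgebra.lift K (mat MvPolynomial.X) p : Matrix (Fin n) (Fin n)
        (MvPolynomial (σ × Fin n × Fin n) K)) i i =
      (FreeAlgebra.lift K (mat MvPolynomial.X) p : Matrix (Fin n) (Fin n)
        (MvPolynomial (σ × Fin n × Fin n) K)) j j := by
    intro i j
    apply mul_left_cancel₀ hd
    apply MvPolynomial.funext
    intro P
    rw [map_mul, map_mul, ← hgen, ← hgen]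
    have h1 := congrFun (congrFun (hsc P) i) i
    have h2 := congrFun (congrFun (hsc P) j) j
    rw [Matrix.smul_apply, Matrix.smul_apply, Matrix.one_apply_eq, smul_eq_mul] at h1 h2
    rw [h1, h2]
  intro P
  rw [isSc_iff hn]
  refine ⟨fun i j hij => ?_, fun i j => ?_⟩
  · rw [hgen, hoff i j hij, map_zero]
  · rw [hgen, hgen, hdiag i j]

end

end Pool.Agent.R163.FT
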