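import Pool.Agent.R163.FT.Dom
import Pool.Agent.R163.FT.Main

/-! A generic line through a generic conjugate of a generic tuple of diagonal matrices. -/

set_option autoImplicit false

namespace Pool.Agent.R163.FT.Conj

open Polynomial Pool.Agent.R163.FT

variable {K σ ι : Type*} [Field K] {n : ℕ}

section Perm

variable {R : Type*} [CommRing R]

/-- A permutation matrix. -/
def pm (R : Type*) [CommRing R] (τ : Equiv.Perm (Fin n)) : Matrix (Fin n) (Fin n) R :=
  (1 : Matrix (Fin n) (Fin n) R).submatrix id τ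

theorem submatrix_id (τ : Equiv.Perm (Fin n)) (M : Matrix (Fin n) (Fin n) R) :
    M.submatrix id τ = M * pm R τ := by
  ext a b
  simp [pm, Matrix.mul_apply, Matrix.one_apply]

theorem submatrix_both (τ : Equiv.Perm (Fin n)) (M : Matrix (Fin n) (Fin n) R) :
    M.submatrix τ τ = (pm R τ).transpose * M * pm R τ := by
  ext a b
  simp [pm, Matrix.mul_apply, Matrix.one_apply]

theorem pm_transpose_mul (τ : Equiv.Perm (Fin n)) : (pm R τ).transpose * pm R τ = 1 := by
  have h := submatrix_both τ (1 : Matrix (Fin n) (Fin n) R)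
  rw [mul_one, Matrix.submatrix_one_equiv] at h
  exact h.symm

theorem pm_mul_transpose (τ : Equiv.Perm (Fin n)) : pm R τ * (pm R τ).transpose = 1 :=
  mul_eq_one_comm.1 (pm_transpose_mul τ)

theorem pm_det_sq (τ : Equiv.Perm (Fin n)) : (pm R τ).det * (pm R τ).det = 1 := by
  have h := congrArg Matrix.det (pm_mul_transpose (R := R) τ)
  rw [Matrix.det_mul, Matrix.det_transpose, Matrix.det_one] at h
  exact h

/-- Invariance of `det H • (H Y adj H)`. -/
theorem conj_perm (τ : Equiv.Perm (Fin n)) (H Y : Matrix (Fin n) (Fin n) R) :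
    (H.submatrix id τ).det • (H.submatrix id τ * Y.submatrix τ τ * (H.submatrix id τ).adjugate) =
      H.det • (H * Y * H.adjugate) := by
  rw [submatrix_id, submatrix_both, Matrix.det_mul, Matrix.adjugate_mul_distrib]
  have h1 : H * pm R τ * ((pm R τ).transpose * Y * pm R τ) * ((pm R τ).adjugate * H.adjugate) =
      H * (pm R τ * (pm R τ).transpose) * Y * (pm R τ * (pm R τ).adjugate) * H.adjugate := by
    simp only [mul_assoc]
  rw [h1, pm_mul_transpose, Matrix.mul_adjugate, mul_one, mul_smul_comm, smul_mul_assoc, mul_one,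
    smul_smul, mul_assoc, pm_det_sq, mul_one]

end Perm

/-- Indices of the coordinates of `n` generic points, of a generic tuple of matrices and of one
more generic matrix. -/
abbrev V (σ : Type*) (n : ℕ) := (Fin n × σ) ⊕ ((σ × Fin n × Fin n) ⊕ (Fin n × Fin n))

/-- The ring of polynomials in these coordinates. -/
abbrev RR (K : Type*) [Field K] (σ : Type*) (n : ℕ) := MvPolynomial (V σ n) K

/-- The matrices with diagonal entries `δ i s`. -/
def dgR {R : Type*} [CommRing R] (δ : Fin n → σ → R) (q : σ × Fin n × Fin n) : R :=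
  if q.2.1 = q.2.2 then δ q.2.1 q.1 else 0

theorem dgR_pos {R : Type*} [CommRing R] (δ : Fin n → σ → R) (q : σ × Fin n × Fin n)
    (h : q.2.1 = q.2.2) : dgR δ q = δ q.2.1 q.1 := if_pos h

theorem dgR_neg {R : Type*} [CommRing R] (δ : Fin n → σ → R) (q : σ × Fin n × Fin n)
    (h : q.2.1 ≠ q.2.2) : dgR δ q = 0 := if_neg h

theorem lift_dgR {R : Type*} [CommRing R] [Algebra K R] (δ : Fin n → σ → R)
    (g : FreeAlgebra K σ) :
    FreeAlgebra.lift K (mat (dgR δ)) g =
      Matrix.diagonal fun i => MvPolynomial.aeval (δ i) (ab g) := by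
  have h : FreeAlgebra.lift K (mat (dgR δ)) = (Matrix.diagonalAlgHom (n := Fin n) (α := R) K).comp
      (AlgHom.pi fun i =>
        (MvPolynomial.aeval (δ i)).comp (ab : FreeAlgebra K σ →ₐ[K] MvPolynomial σ K)) := by
    apply FreeAlgebra.hom_ext
    funext s
    ext i j
    by_cases hij : i = j
    · subst hij
      simp [mat, dgR, ab]
    · simp [mat, dgR, ab, hij]
  rw [h]
  ext i j
  by_cases hij : i = j
  · subst hij
    simp
  · simp [hij]

/-- The generic points. -/
noncomputable def pt (K : Type*) [Field K] (σ : Type*) (n : ℕ) (i : Fin n) (s : σ) : RR K σ n :=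
  MvPolynomial.X (Sum.inl (i, s))

/-- The generic matrix used for conjugation. -/
noncomputable def HH (K : Type*) [Field K] (σ : Type*) (n : ℕ) :
    Matrix (Fin n) (Fin n) (RR K σ n) :=
  Matrix.of fun a b => MvPolynomial.X (Sum.inr (Sum.inr (a, b)))

/-- The same matrix, with constant polynomials as entries. -/
noncomputable def HX (K : Type*) [Field K] (σ : Type*) (n : ℕ) :
    Matrix (Fin n) (Fin n) (RR K σ n)[X] :=
  (C : RR K σ n →+* (RR K σ n)[X]).mapMatrix (HH K σ n)

/-- The generic line. -/
noncomputable def yy (K : Type*) [Field K] (σ : Type*) (n : ℕ) (q : σ × Fin n × Fin n) :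
    (RR K σ n)[X] :=
  C (dgR (pt K σ n) q) + X * C (MvPolynomial.X (Sum.inr (Sum.inl q)))

/-- The generic line, conjugated. -/
noncomputable def xx (K : Type*) [Field K] (σ : Type*) (n : ℕ) (q : σ × Fin n × Fin n) :
    (RR K σ n)[X] :=
  ((HX K σ n).det • (HX K σ n * mat (yy K σ n) q.1 * (HX K σ n).adjugate)) q.2.1 q.2.2

/-- The generic line, rescaled. -/
noncomputable def zz (K : Type*) [Field K] (σ : Type*) (n : ℕ) (q : σ × Fin n × Fin n) :
    (RR K σ n)[X] :=
  C ((HH K σ n).det ^ 2) * yy K σ n q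

theorem det_HX : (HX K σ n).det = C (HH K σ n).det := by
  rw [HX, ← RingHom.map_det]

theorem mat_xx (s : σ) : mat (xx K σ n) s =
    (HX K σ n).det • (HX K σ n * mat (yy K σ n) s * (HX K σ n).adjugate) := by
  ext i j
  rfl

theorem mat_zz (s : σ) : mat (zz K σ n) s = (HX K σ n).det ^ 2 • mat (yy K σ n) s := by
  ext i j
  simp [mat, zz, det_HX]

theorem semiconj (f : FreeAlgebra K σ) :
    SemiconjBy (HX K σ n) (FreeAlgebra.lift K (mat (zz K σ n)) f)
      (FreeAlgebra.lift K (mat (xx K σ n)) f) := by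
  induction f using FreeAlgebra.induction with
  | grade0 r =>
    rw [AlgHom.commutes, AlgHom.commutes]
    exact (Algebra.commutes r _).symm
  | grade1 s =>
    rw [FreeAlgebra.lift_ι_apply, FreeAlgebra.lift_ι_apply, SemiconjBy, mat_xx, mat_zz,
      smul_mul_assoc, mul_assoc, Matrix.adjugate_mul, mul_smul_comm, mul_smul_comm, mul_one,
      smul_smul, pow_two]
  | mul a b ha hb =>
    rw [map_mul, map_mul]
    exact ha.mul_right hb
  | add a b ha hb =>
    rw [map_add, map_add]
    exact ha.add_right hb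

/-- Specialisation to points `δ`, conjugating matrix `1`. -/
noncomputable def spec (δ : Fin n → σ → K) : RR K σ n →ₐ[K] K :=
  MvPolynomial.aeval (Sum.elim (fun q => δ q.1 q.2)
    (Sum.elim (fun _ => 0) fun q => if q.1 = q.2 then 1 else 0))

theorem spec_det (δ : Fin n → σ → K) : spec δ (HH K σ n).det = 1 := by
  rw [AlgHom.map_det]
  have : (spec δ).mapMatrix (HH K σ n) = 1 := by
    ext a b
    simp [spec, HH, Matrix.one_apply]
  rw [this, Matrix.det_one]

theorem det_ne_zero : (HH K σ n).det ≠ 0 := by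
  intro h
  have := spec_det (K := K) (σ := σ) (n := n) (fun _ _ => 0)
  rw [h, map_zero] at this
  exact zero_ne_one this

theorem det_HX_ne_zero : (HX K σ n).det ≠ 0 := by
  rw [det_HX]
  exact C_ne_zero.2 det_ne_zero

/-- Restriction of polynomial functions to the conjugated line. -/
noncomputable def lam (K : Type*) [Field K] (σ : Type*) (n : ℕ) :
    MvPolynomial (σ × Fin n × Fin n) K →ₐ[K] (RR K σ n)[X] :=
  MvPolynomial.aeval (xx K σ n)

/-- Recover the generic matrices. -/
noncomputable def back (K : Type*) [Field K] (σ : Type*) (n : ℕ) :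
    (RR K σ n)[X] →ₐ[K] MvPolynomial (σ × Fin n × Fin n) K :=
  (MvPolynomial.aeval (Sum.elim (fun _ => 0)
    (Sum.elim MvPolynomial.X fun q => if q.1 = q.2 then 1 else 0)) :
      RR K σ n →ₐ[K] MvPolynomial (σ × Fin n × Fin n) K).comp
    ((Polynomial.aeval (1 : RR K σ n)).restrictScalars K)

theorem back_C (r : RR K σ n) : back K σ n (C r) =
    MvPolynomial.aeval (Sum.elim (fun _ => 0)
    (Sum.elim MvPolynomial.X fun q => if q.1 = q.2 then 1 else 0)) r := by
  simp [back]

theorem back_X : back K σ n X = 1 := by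
  simp [back]

theorem back_HX : (back K σ n).mapMatrix (HX K σ n) = 1 := by
  ext a b : 1
  simp only [AlgHom.mapMatrix_apply, Matrix.map_apply, HX, RingHom.mapMatrix_apply, HH,
    Matrix.of_apply, back_C, MvPolynomial.aeval_X, Sum.elim_inr]
  rw [Matrix.one_apply]

theorem back_yy (q : σ × Fin n × Fin n) : back K σ n (yy K σ n q) = MvPolynomial.X q := by
  unfold yy
  rw [map_add, map_mul, back_X, back_C, back_C, MvPolynomial.aeval_X, one_mul, Sum.elim_inr,
    Sum.elim_inl]
  have : (MvPolynomial.aeval (Sum.elim (fun _ => 0)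
      (Sum.elim MvPolynomial.X fun q => if q.1 = q.2 then 1 else 0)) :
      RR K σ n →ₐ[K] MvPolynomial (σ × Fin n × Fin n) K) (dgR (pt K σ n) q) = 0 := by
    by_cases hq : q.2.1 = q.2.2
    · rw [dgR_pos _ _ hq, pt, MvPolynomial.aeval_X, Sum.elim_inl]
    · rw [dgR_neg _ _ hq, map_zero]
  rw [this, zero_add]

theorem back_xx (q : σ × Fin n × Fin n) : back K σ n (xx K σ n q) = MvPolynomial.X q := by
  have h : (back K σ n).mapMatrix ((HX K σ n).det •
      (HX K σ n * mat (yy K σ n) q.1 * (HX K σ n).adjugate)) =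
      (back K σ n).mapMatrix (mat (yy K σ n) q.1) := by
    have hsm : ∀ (r : (RR K σ n)[X]) (M : Matrix (Fin n) (Fin n) (RR K σ n)[X]),
        (back K σ n).mapMatrix (r • M) = back K σ n r • (back K σ n).mapMatrix M := by
      intro r M
      ext i k
      simp
    rw [hsm, map_mul, map_mul, AlgHom.map_det, AlgHom.map_adjugate, back_HX]
    simp
  have h1 := congrFun (congrFun h q.2.1) q.2.2
  simp only [AlgHom.mapMatrix_apply, Matrix.map_apply] at h1
  have h2 : mat (yy K σ n) q.1 q.2.1 q.2.2 = yy K σ n q := rfl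
  rw [h2, back_yy] at h1
  exact h1

theorem lam_injective : Function.Injective (lam K σ n) := by
  have h : (back K σ n).comp (lam K σ n) = AlgHom.id K _ := by
    apply MvPolynomial.algHom_ext
    intro q
    rw [AlgHom.comp_apply, lam, MvPolynomial.aeval_X, back_xx, AlgHom.id_apply]
  intro a b hab
  have := congrArg (back K σ n) hab
  have h1 := DFunLike.congr_fun h
  simp only [AlgHom.comp_apply, AlgHom.id_apply] at h1
  rwa [h1, h1] at this

end Pool.Agent.R163.FT.Conj
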