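import Pool.Agent.R163.FT.Scalar

/-! The key step over `K[X]`. -/

set_option autoImplicit false

namespace Pool.Agent.R163.FT

open Polynomial

variable {K ι : Type*} [Field K] [Fintype ι] {n : ℕ}

/-- Evaluation at zero of a matrix over `K[X]`. -/
noncomputable def ev0 (K : Type*) [Field K] (n : ℕ) :
    Matrix (Fin n) (Fin n) K[X] →+* Matrix (Fin n) (Fin n) K :=
  (Polynomial.constantCoeff : K[X] →+* K).mapMatrix

theorem ev0_smul (r : K[X]) (M : Matrix (Fin n) (Fin n) K[X]) :
    ev0 K n (r • M) = r.coeff 0 • ev0 K n M := by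
  ext i j
  simp [ev0, RingHom.mapMatrix_apply, Matrix.map_apply, Matrix.smul_apply, mul_coeff_zero]

theorem ev0_comb (G : ι → Matrix (Fin n) (Fin n) K[X]) (v : ι → Fin n → K)
    (hG : ∀ j, ev0 K n (G j) = Matrix.diagonal (v j)) (b0 : K[X]) (b : ι → K[X]) :
    ev0 K n (b0 • (1 : Matrix (Fin n) (Fin n) K[X]) + ∑ j, b j • G j) =
      Matrix.diagonal fun i => b0.coeff 0 + ∑ j, (b j).coeff 0 * v j i := by
  rw [map_add, map_sum, ev0_smul, map_one]
  simp only [ev0_smul, hG]
  ext i j
  by_cases hij : i = j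
  · subst hij
    simp [Matrix.sum_apply]
  · simp [Matrix.sum_apply, hij]

theorem isSc_diagonal (hn : 0 < n) (w : Fin n → K) :
    IsSc (Matrix.diagonal w) ↔ ∀ i j, w i = w j := by
  rw [isSc_iff hn]
  constructor
  · intro h i j
    have := h.2 i j
    rwa [Matrix.diagonal_apply_eq, Matrix.diagonal_apply_eq] at this
  · intro h
    refine ⟨fun i j hij => Matrix.diagonal_apply_ne _ hij, fun i j => ?_⟩
    rw [Matrix.diagonal_apply_eq, Matrix.diagonal_apply_eq]
    exact h i j

theorem core (hn : 0 < n) (ν : ℕ) (hν : 0 < ν) (G : ι → Matrix (Fin n) (Fin n) K[X])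
    (v : ι → Fin n → K) (hG : ∀ j, ev0 K n (G j) = Matrix.diagonal (v j))
    (H : ∀ (c0 : K) (c : ι → K),
      (∀ i i', (c0 + ∑ j, c j * v j i) ^ ν = (c0 + ∑ j, c j * v j i') ^ ν) → c = 0)
    (a0 : K[X]) (a : ι → K[X])
    (hF : IsSc ((a0 • (1 : Matrix (Fin n) (Fin n) K[X]) + ∑ j, a j • G j) ^ ν)) : a = 0 := by
  classical
  by_contra hne
  have hne' : ∃ j, a j ≠ 0 := by
    by_contra hcon
    push Not at hcon
    exact hne (funext hcon)
  -- take out the largest power of `X`
  obtain ⟨e, B, hB, hB0⟩ := factor_X (fun o : Option ι => o.elim a0 a)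
    (by obtain ⟨j, hj⟩ := hne'; exact ⟨some j, hj⟩)
  have hBn : a0 = X ^ e * B none := hB none
  have hBs : ∀ j, a j = X ^ e * B (some j) := fun j => hB (some j)
  have hF1 : IsSc ((B none • (1 : Matrix (Fin n) (Fin n) K[X]) +
      ∑ j, B (some j) • G j) ^ ν) := by
    have h1 : a0 • (1 : Matrix (Fin n) (Fin n) K[X]) + ∑ j, a j • G j =
        (X ^ e : K[X]) • (B none • (1 : Matrix (Fin n) (Fin n) K[X]) +
          ∑ j, B (some j) • G j) := by
      rw [smul_add, Finset.smul_sum, smul_smul, ← hBn]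
      congr 1
      refine Finset.sum_congr rfl fun j _ => ?_
      rw [smul_smul, ← hBs]
    rw [h1, _root_.smul_pow] at hF
    exact hF.of_smul hn (pow_ne_zero _ (pow_ne_zero _ X_ne_zero))
  -- the coefficients vanish at zero
  have hs0 : (fun j => (B (some j)).coeff 0) = 0 := by
    apply H ((B none).coeff 0)
    have h2 := hF1.map (Polynomial.constantCoeff : K[X] →+* K)
    change IsSc (ev0 K n _) at h2
    rw [map_pow, ev0_comb G v hG, Matrix.diagonal_pow, isSc_diagonal hn] at h2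
    exact h2
  have hn0 : (B none).coeff 0 ≠ 0 := by
    obtain ⟨k, hk⟩ := hB0
    cases k with
    | none => exact hk
    | some j => exact absurd (congrFun hs0 j) hk
  -- take out the largest power of `X` from the other coefficients
  obtain ⟨f, c, hc, hc0⟩ := factor_X (fun j => B (some j)) (by
    obtain ⟨j, hj⟩ := hne'
    refine ⟨j, fun h0 => hj ?_⟩
    rw [hBs j, h0, mul_zero])
  have hf : f ≠ 0 := by
    rintro rfl
    obtain ⟨j, hj⟩ := hc0
    apply hj
    have := congrFun hs0 j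
    simp only [Pi.zero_apply] at this
    rw [hc j, pow_zero, one_mul] at this
    exact this
  set N : Matrix (Fin n) (Fin n) K[X] := ∑ j, c j • G j with hN
  have hF2 : B none • (1 : Matrix (Fin n) (Fin n) K[X]) + ∑ j, B (some j) • G j =
      B none • (1 : Matrix (Fin n) (Fin n) K[X]) + (X ^ f : K[X]) • N := by
    rw [hN, Finset.smul_sum]
    congr 1
    refine Finset.sum_congr rfl fun j _ => ?_
    rw [smul_smul, ← hc]
  rw [hF2] at hF1
  obtain ⟨q, m, hqm, hq, hm, hfrob, hadd⟩ := exists_split K ν hν n hn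
  set A1 : Matrix (Fin n) (Fin n) K[X] :=
    (B none • (1 : Matrix (Fin n) (Fin n) K[X]) + (X ^ f : K[X]) • N) ^ q with hA1
  set B1 : Matrix (Fin n) (Fin n) K[X] := (B none) ^ q • (1 : Matrix (Fin n) (Fin n) K[X]) with hB1
  have hAB : A1 = B1 + (X ^ f : K[X]) ^ q • N ^ q := by
    rw [hA1, hadd _ _ ((Commute.one_left _).smul_left _), _root_.smul_pow, _root_.smul_pow, one_pow]
  have hcomm : Commute A1 B1 := by
    rw [hB1]
    exact (Commute.one_right _).smul_right _
  have hgeom := hcomm.mul_geom_sum₂ m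
  have hAm : IsSc (A1 ^ m) := by
    rw [hA1, ← pow_mul, ← hqm]
    exact hF1
  have hBm : IsSc (B1 ^ m) := ⟨((B none) ^ q) ^ m, by rw [hB1, _root_.smul_pow, one_pow]⟩
  have hdiff : IsSc ((A1 - B1) * ∑ i ∈ Finset.range m, A1 ^ i * B1 ^ (m - 1 - i)) := by
    rw [hgeom]
    exact hAm.sub hBm
  have hsub : A1 - B1 = (X ^ f : K[X]) ^ q • N ^ q := by
    rw [hAB]
    exact add_sub_cancel_left _ _
  rw [hsub, smul_mul_assoc] at hdiff
  have hNS := hdiff.of_smul hn (pow_ne_zero _ (pow_ne_zero _ X_ne_zero))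
  have h3 := hNS.map (Polynomial.constantCoeff : K[X] →+* K)
  change IsSc (ev0 K n _) at h3
  have hB1e : ev0 K n B1 = (B none).coeff 0 ^ q • (1 : Matrix (Fin n) (Fin n) K) := by
    rw [hB1, ev0_smul, map_one, coeff_zero_eq_eval_zero, eval_pow, ← coeff_zero_eq_eval_zero]
  have hA1e : ev0 K n A1 = (B none).coeff 0 ^ q • (1 : Matrix (Fin n) (Fin n) K) := by
    rw [hAB, map_add, hB1e, ev0_smul]
    have : ((X ^ f : K[X]) ^ q).coeff 0 = 0 := by
      rw [coeff_zero_eq_eval_zero, eval_pow, eval_pow, eval_X, zero_pow hf, zero_pow hq]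
    rw [this, zero_smul, add_zero]
  have hS : ev0 K n (∑ i ∈ Finset.range m, A1 ^ i * B1 ^ (m - 1 - i)) =
      ((m : K) * ((B none).coeff 0 ^ q) ^ (m - 1)) • (1 : Matrix (Fin n) (Fin n) K) := by
    rw [map_sum]
    have : ∀ i ∈ Finset.range m, ev0 K n (A1 ^ i * B1 ^ (m - 1 - i)) =
        ((B none).coeff 0 ^ q) ^ (m - 1) • (1 : Matrix (Fin n) (Fin n) K) := by
      intro i hi
      rw [map_mul, map_pow (ev0 K n) A1 i, map_pow (ev0 K n) B1, hB1e, hA1e, _root_.smul_pow, _root_.smul_pow, one_pow, one_pow,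
        smul_mul_smul_comm, mul_one, ← pow_add]
      congr 2
      have := Finset.mem_range.1 hi
      omega
    rw [Finset.sum_congr rfl this, Finset.sum_const, Finset.card_range, ← Nat.cast_smul_eq_nsmul K,
      smul_smul]
  have hNe : ev0 K n N = Matrix.diagonal fun i => ∑ j, (c j).coeff 0 * v j i := by
    have := ev0_comb G v hG 0 c
    rw [zero_smul, zero_add] at this
    rw [hN, this]
    congr 1
    funext i
    rw [coeff_zero, zero_add]
  rw [map_mul, map_pow, hS, mul_smul_comm, mul_one, hNe, Matrix.diagonal_pow] at h3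
  have h4 := h3.of_smul hn (mul_ne_zero hm (pow_ne_zero _ (pow_ne_zero _ hn0)))
  rw [isSc_diagonal hn] at h4
  have h5 : (fun j => (c j).coeff 0) = 0 := by
    apply H 0
    intro i i'
    have h6 := hfrob _ _ (h4 i i')
    simp only at h6
    rw [h6]
  obtain ⟨j, hj⟩ := hc0
  exact hj (congrFun h5 j)

end Pool.Agent.R163.FT
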