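import Pool.Agent.R163.FT.Scalar

/-! The key step over `R[X]`, `R` a domain. -/

set_option autoImplicit false

namespace Pool.Agent.R163.FT.Dom

open Polynomial Pool.Agent.R163.FT

variable {R ι : Type*} [CommRing R] [IsDomain R] [Fintype ι] {n : ℕ}

omit [IsDomain R] in
/-- Take the largest power of `X` out of a finite family of polynomials. -/
theorem factor_X {κ : Type*} (A : κ → R[X]) (hA : ∃ k, A k ≠ 0) :
    ∃ (e : ℕ) (B : κ → R[X]), (∀ k, A k = X ^ e * B k) ∧ (∀ k, (B k).coeff 0 = (A k).coeff e) ∧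
      ∃ k, (B k).coeff 0 ≠ 0 := by
  classical
  have hex : ∃ e, ∃ k, (A k).coeff e ≠ 0 := by
    obtain ⟨k, hk⟩ := hA
    by_contra hcon
    push Not at hcon
    exact hk (Polynomial.ext fun e => by rw [hcon e k, coeff_zero])
  have hdvd : ∀ k, X ^ Nat.find hex ∣ A k := by
    intro k
    rw [X_pow_dvd_iff]
    intro d hd
    by_contra hne
    exact Nat.find_min hex hd ⟨k, hne⟩
  choose B hB using hdvd
  have hco : ∀ k, (B k).coeff 0 = (A k).coeff (Nat.find hex) := by
    intro k
    have := coeff_X_pow_mul (B k) (Nat.find hex) 0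
    rw [zero_add] at this
    rw [hB k, this]
  refine ⟨Nat.find hex, B, hB, hco, ?_⟩
  obtain ⟨k, hk⟩ := Nat.find_spec hex
  exact ⟨k, by rw [hco k]; exact hk⟩

/-- Split an exponent into its Frobenius part and a part invertible in `K`. -/
theorem exists_split (K : Type*) [Field K] [Algebra K R] (ν : ℕ) (hν : 0 < ν) (n : ℕ)
    (hn : 0 < n) :
    ∃ q m : ℕ, ν = q * m ∧ q ≠ 0 ∧ (m : R) ≠ 0 ∧ (∀ x y : R, x ^ q = y ^ q → x = y) ∧
      ∀ M N : Matrix (Fin n) (Fin n) R[X], Commute M N → (M + N) ^ q = M ^ q + N ^ q := by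
  have : NeZero n := ⟨hn.ne'⟩
  obtain ⟨p, hp⟩ := ExpChar.exists K
  have hinj : Function.Injective (algebraMap K (Matrix (Fin n) (Fin n) R[X])) :=
    (algebraMap K (Matrix (Fin n) (Fin n) R[X])).injective
  have hinj' : Function.Injective (algebraMap K R) := (algebraMap K R).injective
  have h1 := expChar_of_injective_algebraMap hinj p
  have h2 := expChar_of_injective_algebraMap hinj' p
  obtain ⟨k, m, hkm, hm⟩ : ∃ k m : ℕ, ν = p ^ k * m ∧ (m : K) ≠ 0 := by
    cases hp with
    | zero => exact ⟨0, ν, by simp, by exact_mod_cast hν.ne'⟩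
    | prime hprime =>
      obtain ⟨k, m, hm, hkm⟩ := Nat.exists_eq_pow_mul_and_not_dvd hν.ne' p hprime.ne_one
      exact ⟨k, m, hkm, fun h0 => hm ((CharP.cast_eq_zero_iff K p m).1 h0)⟩
  refine ⟨p ^ k, m, hkm, pow_ne_zero _ (expChar_pos K p).ne', fun h0 => hm (hinj' ?_),
    fun x y hxy => ?_, fun M N hMN => add_pow_expChar_pow_of_commute p k hMN⟩
  · rw [map_natCast, map_zero]
    exact h0
  have h1 : (x - y) ^ p ^ k = x ^ p ^ k - y ^ p ^ k := sub_pow_expChar_pow _ _ _
  rw [hxy, sub_self] at h1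
  exact sub_eq_zero.1 (pow_eq_zero_iff (pow_ne_zero _ (expChar_pos K p).ne') |>.1 h1)

/-- Evaluation at zero of a matrix over `R[X]`. -/
noncomputable def ev0 (R : Type*) [CommRing R] (n : ℕ) :
    Matrix (Fin n) (Fin n) R[X] →+* Matrix (Fin n) (Fin n) R :=
  (Polynomial.constantCoeff : R[X] →+* R).mapMatrix

omit [IsDomain R] in
theorem ev0_smul (r : R[X]) (M : Matrix (Fin n) (Fin n) R[X]) :
    ev0 R n (r • M) = r.coeff 0 • ev0 R n M := by
  ext i j
  simp [ev0, RingHom.mapMatrix_apply, Matrix.map_apply, Matrix.smul_apply, mul_coeff_zero]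

omit [IsDomain R] in
theorem ev0_comb (G : ι → Matrix (Fin n) (Fin n) R[X]) (v : ι → Fin n → R)
    (hG : ∀ j, ev0 R n (G j) = Matrix.diagonal (v j)) (b0 : R[X]) (b : ι → R[X]) :
    ev0 R n (b0 • (1 : Matrix (Fin n) (Fin n) R[X]) + ∑ j, b j • G j) =
      Matrix.diagonal fun i => b0.coeff 0 + ∑ j, (b j).coeff 0 * v j i := by
  rw [map_add, map_sum, ev0_smul, map_one]
  simp only [ev0_smul, hG]
  ext i j
  by_cases hij : i = j
  · subst hij
    simp [Matrix.sum_apply]
  · simp [Matrix.sum_apply, hij]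

omit [IsDomain R] in
theorem isSc_diagonal (hn : 0 < n) (w : Fin n → R) :
    IsSc (Matrix.diagonal w) ↔ ∀ i j, w i = w j := by
  rw [isSc_iff hn]
  constructor
  · intro h i j
    have := h.2 i j
    rwa [Matrix.diagonal_apply_eq, Matrix.diagonal_apply_eq] at this
  · intro h
    refine ⟨fun i j hij => Matrix.diagonal_apply_ne _ hij, fun i j => ?_⟩
    rw [Matrix.diagonal_apply_eq, Matrix.diagonal_apply_eq]
    exact h i j

theorem core (K : Type*) [Field K] [Algebra K R] (hn : 0 < n) (ν : ℕ) (hν : 0 < ν)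
    (G : ι → Matrix (Fin n) (Fin n) R[X])
    (v : ι → Fin n → R) (hG : ∀ j, ev0 R n (G j) = Matrix.diagonal (v j))
    (Hinj : ∀ (c0 : R) (c : ι → R),
      (∀ i i', c0 + ∑ j, c j * v j i = c0 + ∑ j, c j * v j i') → c = 0)
    (a0 : R[X]) (a : ι → R[X])
    (Heq : ∀ e : ℕ, (∀ i i', (a0.coeff e + ∑ j, (a j).coeff e * v j i) ^ ν =
        (a0.coeff e + ∑ j, (a j).coeff e * v j i') ^ ν) →
      ∀ i i', a0.coeff e + ∑ j, (a j).coeff e * v j i =
        a0.coeff e + ∑ j, (a j).coeff e * v j i')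
    (hF : IsSc ((a0 • (1 : Matrix (Fin n) (Fin n) R[X]) + ∑ j, a j • G j) ^ ν)) : a = 0 := by
  classical
  by_contra hne
  have hne' : ∃ j, a j ≠ 0 := by
    by_contra hcon
    push Not at hcon
    exact hne (funext hcon)
  -- take out the largest power of `X`
  obtain ⟨e, B, hB, hBe, hB0⟩ := factor_X (fun o : Option ι => o.elim a0 a)
    (by obtain ⟨j, hj⟩ := hne'; exact ⟨some j, hj⟩)
  have hBn : a0 = X ^ e * B none := hB none
  have hBs : ∀ j, a j = X ^ e * B (some j) := fun j => hB (some j)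
  have hBne : (B none).coeff 0 = a0.coeff e := hBe none
  have hBse : ∀ j, (B (some j)).coeff 0 = (a j).coeff e := fun j => hBe (some j)
  have hF1 : IsSc ((B none • (1 : Matrix (Fin n) (Fin n) R[X]) +
      ∑ j, B (some j) • G j) ^ ν) := by
    have h1 : a0 • (1 : Matrix (Fin n) (Fin n) R[X]) + ∑ j, a j • G j =
        (X ^ e : R[X]) • (B none • (1 : Matrix (Fin n) (Fin n) R[X]) +
          ∑ j, B (some j) • G j) := by
      rw [smul_add, Finset.smul_sum, smul_smul, ← hBn]
      congr 1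
      refine Finset.sum_congr rfl fun j _ => ?_
      rw [smul_smul, ← hBs]
    rw [h1, _root_.smul_pow] at hF
    exact hF.of_smul hn (pow_ne_zero _ (pow_ne_zero _ X_ne_zero))
  -- the coefficients vanish at zero
  have hs0 : (fun j => (B (some j)).coeff 0) = 0 := by
    apply Hinj ((B none).coeff 0)
    have h2 := hF1.map (Polynomial.constantCoeff : R[X] →+* R)
    change IsSc (ev0 R n _) at h2
    rw [map_pow, ev0_comb G v hG, Matrix.diagonal_pow, isSc_diagonal hn] at h2
    simp only [Pi.pow_apply, hBne, hBse] at h2 ⊢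
    exact Heq e h2
  have hn0 : (B none).coeff 0 ≠ 0 := by
    obtain ⟨k, hk⟩ := hB0
    cases k with
    | none => exact hk
    | some j => exact absurd (congrFun hs0 j) hk
  -- take out the largest power of `X` from the other coefficients
  obtain ⟨f, c, hc, -, hc0⟩ := factor_X (fun j => B (some j)) (by
    obtain ⟨j, hj⟩ := hne'
    refine ⟨j, fun h0 => hj ?_⟩
    rw [hBs j, h0, mul_zero])
  have hf : f ≠ 0 := by
    rintro rfl
    obtain ⟨j, hj⟩ := hc0
    apply hj
    have := congrFun hs0 j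
    simp only [Pi.zero_apply] at this
    rw [hc j, pow_zero, one_mul] at this
    exact this
  set N : Matrix (Fin n) (Fin n) R[X] := ∑ j, c j • G j with hN
  have hF2 : B none • (1 : Matrix (Fin n) (Fin n) R[X]) + ∑ j, B (some j) • G j =
      B none • (1 : Matrix (Fin n) (Fin n) R[X]) + (X ^ f : R[X]) • N := by
    rw [hN, Finset.smul_sum]
    congr 1
    refine Finset.sum_congr rfl fun j _ => ?_
    rw [smul_smul, ← hc]
  rw [hF2] at hF1
  obtain ⟨q, m, hqm, hq, hm, hfrob, hadd⟩ := exists_split (R := R) K ν hν n hn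
  set A1 : Matrix (Fin n) (Fin n) R[X] :=
    (B none • (1 : Matrix (Fin n) (Fin n) R[X]) + (X ^ f : R[X]) • N) ^ q with hA1
  set B1 : Matrix (Fin n) (Fin n) R[X] := (B none) ^ q • (1 : Matrix (Fin n) (Fin n) R[X]) with hB1
  have hAB : A1 = B1 + (X ^ f : R[X]) ^ q • N ^ q := by
    rw [hA1, hadd _ _ ((Commute.one_left _).smul_left _), _root_.smul_pow, _root_.smul_pow,
      one_pow]
  have hcomm : Commute A1 B1 := by
    rw [hB1]
    exact (Commute.one_right _).smul_right _
  have hgeom := hcomm.mul_geom_sum₂ m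
  have hAm : IsSc (A1 ^ m) := by
    rw [hA1, ← pow_mul, ← hqm]
    exact hF1
  have hBm : IsSc (B1 ^ m) := ⟨((B none) ^ q) ^ m, by rw [hB1, _root_.smul_pow, one_pow]⟩
  have hdiff : IsSc ((A1 - B1) * ∑ i ∈ Finset.range m, A1 ^ i * B1 ^ (m - 1 - i)) := by
    rw [hgeom]
    exact hAm.sub hBm
  have hsub : A1 - B1 = (X ^ f : R[X]) ^ q • N ^ q := by
    rw [hAB]
    exact add_sub_cancel_left _ _
  rw [hsub, smul_mul_assoc] at hdiff
  have hNS := hdiff.of_smul hn (pow_ne_zero _ (pow_ne_zero _ X_ne_zero))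
  have h3 := hNS.map (Polynomial.constantCoeff : R[X] →+* R)
  change IsSc (ev0 R n _) at h3
  have hB1e : ev0 R n B1 = (B none).coeff 0 ^ q • (1 : Matrix (Fin n) (Fin n) R) := by
    rw [hB1, ev0_smul, map_one, coeff_zero_eq_eval_zero, eval_pow, ← coeff_zero_eq_eval_zero]
  have hA1e : ev0 R n A1 = (B none).coeff 0 ^ q • (1 : Matrix (Fin n) (Fin n) R) := by
    rw [hAB, map_add, hB1e, ev0_smul]
    have : ((X ^ f : R[X]) ^ q).coeff 0 = 0 := by
      rw [coeff_zero_eq_eval_zero, eval_pow, eval_pow, eval_X, zero_pow hf, zero_pow hq]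
    rw [this, zero_smul, add_zero]
  have hS : ev0 R n (∑ i ∈ Finset.range m, A1 ^ i * B1 ^ (m - 1 - i)) =
      ((m : R) * ((B none).coeff 0 ^ q) ^ (m - 1)) • (1 : Matrix (Fin n) (Fin n) R) := by
    rw [map_sum]
    have : ∀ i ∈ Finset.range m, ev0 R n (A1 ^ i * B1 ^ (m - 1 - i)) =
        ((B none).coeff 0 ^ q) ^ (m - 1) • (1 : Matrix (Fin n) (Fin n) R) := by
      intro i hi
      rw [map_mul, map_pow (ev0 R n) A1 i, map_pow (ev0 R n) B1, hB1e, hA1e, _root_.smul_pow,
        _root_.smul_pow, one_pow, one_pow, smul_mul_smul_comm, mul_one, ← pow_add]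
      congr 2
      have := Finset.mem_range.1 hi
      omega
    rw [Finset.sum_congr rfl this, Finset.sum_const, Finset.card_range, ← Nat.cast_smul_eq_nsmul R,
      smul_smul]
  have hNe : ev0 R n N = Matrix.diagonal fun i => ∑ j, (c j).coeff 0 * v j i := by
    have := ev0_comb G v hG 0 c
    rw [zero_smul, zero_add] at this
    rw [hN, this]
    congr 1
    funext i
    rw [coeff_zero, zero_add]
  rw [map_mul, map_pow, hS, mul_smul_comm, mul_one, hNe, Matrix.diagonal_pow] at h3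
  have h4 := h3.of_smul hn (mul_ne_zero hm (pow_ne_zero _ (pow_ne_zero _ hn0)))
  rw [isSc_diagonal hn] at h4
  have h5 : (fun j => (c j).coeff 0) = 0 := by
    apply Hinj 0
    intro i i'
    have h6 := hfrob _ _ (h4 i i')
    simp only at h6
    rw [h6]
  obtain ⟨j, hj⟩ := hc0
  exact hj (congrFun h5 j)

end Pool.Agent.R163.FT.Dom
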