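import Pool.Agent.R163.FT.Conj

/-! Few terms with arbitrary coefficient functions: the sharp form of the argument. -/

set_option autoImplicit false

namespace Pool.Agent.R163.FT.Conj

open Polynomial Pool.Agent.R163.FT

variable {K σ ι : Type*} [Field K] {n : ℕ}

/-- The action of a permutation on the indices of the entries. -/
def permQ (τ : Equiv.Perm (Fin n)) (q : σ × Fin n × Fin n) : σ × Fin n × Fin n :=
  (q.1, τ q.2.1, τ q.2.2)

/-- The action of a permutation on all indices. -/
def permV (τ : Equiv.Perm (Fin n)) : V σ n → V σ n :=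
  Sum.map (fun q => (τ q.1, q.2)) (Sum.map (permQ τ) fun q => (q.1, τ q.2))

/-- The action of a permutation on the coordinate ring. -/
noncomputable def rho (K : Type*) [Field K] (σ : Type*) {n : ℕ} (τ : Equiv.Perm (Fin n)) :
    RR K σ n →ₐ[K] RR K σ n :=
  MvPolynomial.rename (permV τ)

/-- The action on polynomials over it. -/
noncomputable def rhoX (K : Type*) [Field K] (σ : Type*) {n : ℕ} (τ : Equiv.Perm (Fin n)) :
    (RR K σ n)[X] →ₐ[K] (RR K σ n)[X] :=
  Polynomial.mapAlgHom (rho K σ τ)

theorem rhoX_C (τ : Equiv.Perm (Fin n)) (r : RR K σ n) : rhoX K σ τ (C r) = C (rho K σ τ r) := by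
  simp [rhoX]

theorem rhoX_X (τ : Equiv.Perm (Fin n)) : rhoX K σ τ X = X := by
  simp [rhoX]

theorem rho_pt (τ : Equiv.Perm (Fin n)) (i : Fin n) (s : σ) :
    rho K σ τ (pt K σ n i s) = pt K σ n (τ i) s := by
  unfold rho pt
  rw [MvPolynomial.rename_X]
  rfl

theorem rho_dgR (τ : Equiv.Perm (Fin n)) (q : σ × Fin n × Fin n) :
    rho K σ τ (dgR (pt K σ n) q) = dgR (pt K σ n) (permQ τ q) := by
  by_cases hq : q.2.1 = q.2.2
  · rw [dgR_pos _ _ hq, dgR_pos _ (permQ τ q) (congrArg τ hq)]
    exact rho_pt τ _ _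
  · rw [dgR_neg _ _ hq, dgR_neg _ (permQ τ q) (fun h => hq (τ.injective h)), map_zero]

theorem rhoX_yy (τ : Equiv.Perm (Fin n)) (q : σ × Fin n × Fin n) :
    rhoX K σ τ (yy K σ n q) = yy K σ n (permQ τ q) := by
  unfold yy
  rw [map_add, map_mul, rhoX_X, rhoX_C, rhoX_C, rho_dgR]
  congr 3
  unfold rho
  rw [MvPolynomial.rename_X]
  rfl

theorem rhoX_HX (τ : Equiv.Perm (Fin n)) :
    (rhoX K σ τ).mapMatrix (HX K σ n) = (HX K σ n).submatrix id τ := by
  ext a b : 1
  simp only [AlgHom.mapMatrix_apply, Matrix.map_apply, HX, RingHom.mapMatrix_apply, HH,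
    Matrix.of_apply, Matrix.submatrix_apply, rhoX_C, id]
  congr 1
  unfold rho
  rw [MvPolynomial.rename_X]
  rfl

theorem rho_HH (τ : Equiv.Perm (Fin n)) :
    (rho K σ τ).mapMatrix (HH K σ n) = (HH K σ n).submatrix id τ := by
  ext a b : 1
  simp only [AlgHom.mapMatrix_apply, Matrix.map_apply, HH,
    Matrix.of_apply, Matrix.submatrix_apply, id]
  unfold rho
  rw [MvPolynomial.rename_X]
  rfl

theorem rho_det_sq (τ : Equiv.Perm (Fin n)) :
    rho K σ τ ((HH K σ n).det ^ 2) = (HH K σ n).det ^ 2 := by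
  rw [map_pow, AlgHom.map_det, rho_HH, submatrix_id, Matrix.det_mul, mul_pow, pow_two (pm _ τ).det,
    pm_det_sq, mul_one]

theorem rhoX_mat_yy (τ : Equiv.Perm (Fin n)) (s : σ) :
    (rhoX K σ τ).mapMatrix (mat (yy K σ n) s) = (mat (yy K σ n) s).submatrix τ τ := by
  ext a b : 1
  simp only [AlgHom.mapMatrix_apply, Matrix.map_apply, mat, Matrix.of_apply,
    Matrix.submatrix_apply]
  rw [rhoX_yy]
  rfl

theorem rhoX_xx (τ : Equiv.Perm (Fin n)) (q : σ × Fin n × Fin n) :
    rhoX K σ τ (xx K σ n q) = xx K σ n q := by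
  have h : (rhoX K σ τ).mapMatrix ((HX K σ n).det •
      (HX K σ n * mat (yy K σ n) q.1 * (HX K σ n).adjugate)) =
      (HX K σ n).det • (HX K σ n * mat (yy K σ n) q.1 * (HX K σ n).adjugate) := by
    have hsm : ∀ (r : (RR K σ n)[X]) (M : Matrix (Fin n) (Fin n) (RR K σ n)[X]),
        (rhoX K σ τ).mapMatrix (r • M) = rhoX K σ τ r • (rhoX K σ τ).mapMatrix M := by
      intro r M
      ext i k : 1
      simp
    rw [hsm, map_mul, map_mul, AlgHom.map_det, AlgHom.map_adjugate, rhoX_HX, rhoX_mat_yy,
      conj_perm]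
  exact congrFun (congrFun h q.2.1) q.2.2

theorem coeff_perm (τ : Equiv.Perm (Fin n)) (c : MvPolynomial (σ × Fin n × Fin n) K) (e : ℕ) :
    rho K σ τ ((lam K σ n c).coeff e) = (lam K σ n c).coeff e := by
  have h : (rhoX K σ τ).comp (lam K σ n) = lam K σ n := by
    apply MvPolynomial.algHom_ext
    intro q
    rw [AlgHom.comp_apply, lam, MvPolynomial.aeval_X, rhoX_xx]
  have h1 := congrArg (fun P => Polynomial.coeff P e) (DFunLike.congr_fun h c)
  rw [AlgHom.comp_apply] at h1
  simp only [rhoX, Polynomial.coe_mapAlgHom, Polynomial.coeff_map] at h1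
  exact h1

/-- The value of the commutative image at the `i`-th rescaled generic point. -/
noncomputable def gv (n : ℕ) (g : FreeAlgebra K σ) (i : Fin n) : RR K σ n :=
  MvPolynomial.aeval (fun s => (HH K σ n).det ^ 2 * pt K σ n i s) (ab g)

theorem gv_perm (τ : Equiv.Perm (Fin n)) (g : FreeAlgebra K σ) (i : Fin n) :
    rho K σ τ (gv n g i) = gv n g (τ i) := by
  have h : (rho K σ τ).comp (MvPolynomial.aeval fun s => (HH K σ n).det ^ 2 * pt K σ n i s) =
      MvPolynomial.aeval fun s => (HH K σ n).det ^ 2 * pt K σ n (τ i) s := by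
    apply MvPolynomial.algHom_ext
    intro s
    rw [AlgHom.comp_apply, MvPolynomial.aeval_X, MvPolynomial.aeval_X, map_mul, rho_det_sq,
      rho_pt]
  exact DFunLike.congr_fun h (ab g)

/-- Roots of unity among the values must be trivial. -/
theorem eq_of_pow_eq (hn : 3 ≤ n) (ν : ℕ) (hν : 0 < ν) (w : Fin n → RR K σ n)
    (hw : ∀ (τ : Equiv.Perm (Fin n)) (i : Fin n), rho K σ τ (w i) = w (τ i))
    (h : ∀ i i', w i ^ ν = w i' ^ ν) (i i' : Fin n) : w i = w i' := by
  obtain ⟨k, hki, hki'⟩ : ∃ k : Fin n, k ≠ i ∧ k ≠ i' := by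
    by_contra hcon
    push Not at hcon
    have h1 : (Finset.univ : Finset (Fin n)) ⊆ {i, i'} := by
      intro k _
      rw [Finset.mem_insert, Finset.mem_singleton]
      by_cases hk : k = i
      · exact Or.inl hk
      · exact Or.inr (hcon k hk)
    have h2 := Finset.card_le_card h1
    rw [Finset.card_univ, Fintype.card_fin] at h2
    have h3 : ({i, i'} : Finset (Fin n)).card ≤ 2 := Finset.card_le_two
    omega
  have hd1 : w i ∣ w k := (IsIntegrallyClosed.pow_dvd_pow_iff hν.ne').1 (by rw [h i k])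
  have hd2 : w k ∣ w i := (IsIntegrallyClosed.pow_dvd_pow_iff hν.ne').1 (by rw [h i k])
  obtain ⟨u, hu⟩ := associated_of_dvd_dvd hd1 hd2
  obtain ⟨c, hc, hcu⟩ := MvPolynomial.isUnit_iff_eq_C_of_isReduced.1 u.isUnit
  rw [hcu] at hu
  have hC : rho K σ (Equiv.swap i i') (MvPolynomial.C c) = MvPolynomial.C c := by
    unfold rho
    rw [MvPolynomial.rename_C]
  have h4 := congrArg (rho K σ (Equiv.swap i i')) hu
  rw [map_mul, hw, hw, hC, Equiv.swap_apply_left,
    Equiv.swap_apply_of_ne_of_ne hki hki'] at h4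
  have h5 : (MvPolynomial.C c : RR K σ n) ≠ 0 := by
    rw [← hcu]
    exact u.ne_zero
  exact mul_right_cancel₀ h5 (hu.trans h4.symm)

section

variable [Infinite K]

/-- Values at generic points are as independent as possible. -/
theorem inj [Fintype ι] (hcard : Fintype.card ι + 1 ≤ n) (g : ι → FreeAlgebra K σ)
    (hg : ∀ (c₀ : K) (c : ι → K), MvPolynomial.C c₀ + ∑ j, c j • ab (g j) = 0 → c = 0)
    (c0 : RR K σ n) (c : ι → RR K σ n)
    (h : ∀ i i', c0 + ∑ j, c j * gv n (g j) i = c0 + ∑ j, c j * gv n (g j) i') : c = 0 := by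
  classical
  obtain ⟨δ', hδ'⟩ := points _ (dense_of_indep (fun j => ab (g j)) hg) 0 {1}
    (Set.finite_singleton _) (Fintype.card ι + 1) {⊤} (Set.finite_singleton _) (by
      intro W hW
      rw [Set.mem_singleton_iff] at hW
      rw [hW, finrank_top, Module.finrank_prod, Module.finrank_self,
        Module.finrank_fintype_fun_eq_card]
      omega)
  have hδ : ∀ a : K × (ι → K), (∀ i, val (fun (j : ι) (θ : σ → K) =>
      MvPolynomial.eval θ (ab (g j))) (δ' i) a = 0) → a.2 = 0 := by
    intro a ha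
    refine hδ' ⊤ (Set.mem_singleton _) (fun _ => 1) (fun _ => Set.mem_singleton _) a
      Submodule.mem_top fun i => ?_
    rw [ha i, LinearMap.zero_apply, mul_zero]
  have hN : Fintype.card (Option ι) = Fintype.card ι + 1 := Fintype.card_option
  let eo : Option ι ≃ Fin (Fintype.card ι + 1) := Fintype.equivFinOfCardEq hN
  let e : Option ι → Fin n := fun o => ⟨(eo o : ℕ), lt_of_lt_of_le (eo o).2 hcard⟩
  let M : Matrix (Option ι) (Option ι) (RR K σ n) :=
    Matrix.of fun o k => k.elim 1 fun j => gv n (g j) (e o)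
  -- the determinant is not zero
  have hdet : M.det ≠ 0 := by
    intro h0
    let δ : Fin n → σ → K := fun i => if hi : (i : ℕ) < Fintype.card ι + 1 then δ' ⟨i, hi⟩ else 0
    have hδe : ∀ o, δ (e o) = δ' (eo o) := by
      intro o
      simp only [δ, e]
      rw [dif_pos (eo o).2]
    have hev : ∀ (f : FreeAlgebra K σ) (i : Fin n),
        spec δ (gv n f i) = MvPolynomial.eval (δ i) (ab f) := by
      intro f i
      have h1 : (spec δ).comp (MvPolynomial.aeval fun s => (HH K σ n).det ^ 2 * pt K σ n i s) =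
          MvPolynomial.aeval (δ i) := by
        apply MvPolynomial.algHom_ext
        intro s
        rw [AlgHom.comp_apply, MvPolynomial.aeval_X, MvPolynomial.aeval_X, map_mul, map_pow,
          spec_det, one_pow, one_mul]
        unfold pt spec
        rw [MvPolynomial.aeval_X, Sum.elim_inl]
      have h2 := DFunLike.congr_fun h1 (ab f)
      rw [MvPolynomial.aeval_eq_eval] at h2
      exact h2
    have h1 : ((spec δ).mapMatrix M).det = 0 := by
      rw [← AlgHom.map_det, h0, map_zero]
    obtain ⟨u, hu0, hu⟩ := Matrix.exists_mulVec_eq_zero_iff.2 h1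
    apply hu0
    have h2 : ∀ o : Option ι, u none + ∑ j, u (some j) *
        MvPolynomial.eval (δ' (eo o)) (ab (g j)) = 0 := by
      intro o
      have h3 := congrFun hu o
      rw [Matrix.mulVec, dotProduct, Fintype.sum_option] at h3
      simp only [AlgHom.mapMatrix_apply, Matrix.map_apply, M, Matrix.of_apply, Option.elim_none,
        Option.elim_some, map_one, one_mul, hev, Pi.zero_apply, hδe] at h3
      rw [← h3]
      congr 1
      exact Finset.sum_congr rfl fun j _ => mul_comm _ _
    have h4 := hδ (u none, fun j => u (some j)) (by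
      intro i
      rw [val_apply]
      have := h2 (eo.symm i)
      rw [Equiv.apply_symm_apply] at this
      exact this)
    have h5 : ∀ j, u (some j) = 0 := fun j => congrFun h4 j
    funext o
    cases o with
    | some j => exact h5 j
    | none =>
      have := h2 none
      simp only [h5, zero_mul, Finset.sum_const_zero, add_zero] at this
      exact this
  -- the equations give a vector in the kernel
  have hn : 0 < n := by omega
  let w : Option ι → RR K σ n := fun o =>
    o.elim (-(∑ j, c j * gv n (g j) ⟨0, hn⟩)) c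
  have hw : M.mulVec w = 0 := by
    funext o
    rw [Matrix.mulVec, dotProduct, Fintype.sum_option]
    simp only [M, Matrix.of_apply, Option.elim_none, Option.elim_some, w, one_mul, Pi.zero_apply]
    have h1 := h (e o) ⟨0, hn⟩
    have h2 : ∑ j, gv n (g j) (e o) * c j = ∑ j, c j * gv n (g j) (e o) :=
      Finset.sum_congr rfl fun j _ => mul_comm _ _
    rw [h2, add_left_cancel h1]
    exact neg_add_cancel _
  have hw0 := Matrix.eq_zero_of_mulVec_eq_zero hdet hw
  funext j
  exact congrFun hw0 (some j)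

theorem isSc_of_evalMv {τ : Type*} (hn : 0 < n) (M : Matrix (Fin n) (Fin n) (MvPolynomial τ K))
    (h : ∀ P : τ → K, IsSc ((MvPolynomial.aeval P : MvPolynomial τ K →ₐ[K] K).mapMatrix M)) :
    IsSc M := by
  rw [isSc_iff hn]
  have h' := fun t => (isSc_iff hn _).1 (h t)
  refine ⟨fun i j hij => ?_, fun i j => ?_⟩
  · apply MvPolynomial.funext
    intro t
    have := (h' t).1 i j hij
    simpa [MvPolynomial.aeval_eq_eval] using this
  · apply MvPolynomial.funext
    intro t
    have := (h' t).2 i j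
    simpa [MvPolynomial.aeval_eq_eval] using this

omit [Infinite K] in
theorem undo {R : Type*} [CommRing R] [IsDomain R] (hn : 0 < n)
    {H F : Matrix (Fin n) (Fin n) R} (hH : H.det ≠ 0) (s : R) (h : H * F = s • H) : IsSc F := by
  have h2 : H.adjugate * (H * F) = H.adjugate * (s • H) := by rw [h]
  rw [← mul_assoc, Matrix.adjugate_mul, smul_mul_assoc, one_mul, mul_smul_comm,
    Matrix.adjugate_mul, smul_smul] at h2
  exact IsSc.of_smul hn hH ⟨_, h2⟩

/-- Few terms, arbitrary coefficients. -/
theorem coeff_zero_full [Fintype ι] (hcard : Fintype.card ι + 1 ≤ n) (hn3 : 3 ≤ n)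
    (g : ι → FreeAlgebra K σ)
    (hg : ∀ (c₀ : K) (c : ι → K), MvPolynomial.C c₀ + ∑ j, c j • ab (g j) = 0 → c = 0)
    (ν : ℕ) (hν : 0 < ν) (γ₀ : MvPolynomial (σ × Fin n × Fin n) K)
    (γ : ι → MvPolynomial (σ × Fin n × Fin n) K)
    (h : ∀ P : σ × Fin n × Fin n → K,
      IsSc ((MvPolynomial.eval P γ₀ • (1 : Matrix (Fin n) (Fin n) K) +
        ∑ j, MvPolynomial.eval P (γ j) • FreeAlgebra.lift K (mat P) (g j)) ^ ν)) :
    ∀ j, γ j = 0 := by
  have hn : 0 < n := by omega
  -- the generic element
  have hgen : IsSc ((γ₀ • (1 : Matrix (Fin n) (Fin n) (MvPolynomial (σ × Fin n × Fin n) K)) +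
      ∑ j, γ j • FreeAlgebra.lift K (mat MvPolynomial.X) (g j)) ^ ν) := by
    apply isSc_of_evalMv hn
    intro P
    have hsm : ∀ (r : MvPolynomial (σ × Fin n × Fin n) K)
        (M : Matrix (Fin n) (Fin n) (MvPolynomial (σ × Fin n × Fin n) K)),
        (MvPolynomial.aeval P : MvPolynomial (σ × Fin n × Fin n) K →ₐ[K] K).mapMatrix (r • M) =
          MvPolynomial.eval P r •
            (MvPolynomial.aeval P : MvPolynomial (σ × Fin n × Fin n) K →ₐ[K] K).mapMatrix M := by
      intro r M
      ext i k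
      simp [MvPolynomial.aeval_eq_eval]
    have h1 : (MvPolynomial.aeval P : MvPolynomial (σ × Fin n × Fin n) K →ₐ[K] K).mapMatrix
        ((γ₀ • (1 : Matrix (Fin n) (Fin n) (MvPolynomial (σ × Fin n × Fin n) K)) +
          ∑ j, γ j • FreeAlgebra.lift K (mat MvPolynomial.X) (g j)) ^ ν) =
        (MvPolynomial.eval P γ₀ • (1 : Matrix (Fin n) (Fin n) K) +
          ∑ j, MvPolynomial.eval P (γ j) • FreeAlgebra.lift K (mat P) (g j)) ^ ν := by
      rw [map_pow, map_add, map_sum, hsm, map_one]
      congr 2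
      refine Finset.sum_congr rfl fun j _ => ?_
      have h3 : (fun q => (MvPolynomial.aeval P : MvPolynomial (σ × Fin n × Fin n) K →ₐ[K] K)
          (MvPolynomial.X q)) = P := by
        funext q
        rw [MvPolynomial.aeval_X]
      rw [hsm, map_lift, h3]
    rw [h1]
    exact h P
  -- restrict to the conjugated generic line
  have hline : IsSc ((lam K σ n γ₀ • (1 : Matrix (Fin n) (Fin n) (RR K σ n)[X]) +
      ∑ j, lam K σ n (γ j) • FreeAlgebra.lift K (mat (xx K σ n)) (g j)) ^ ν) := by
    have h1 := hgen.map (lam K σ n).toRingHom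
    have hsm : ∀ (r : MvPolynomial (σ × Fin n × Fin n) K)
        (M : Matrix (Fin n) (Fin n) (MvPolynomial (σ × Fin n × Fin n) K)),
        (lam K σ n).toRingHom.mapMatrix (r • M) =
          lam K σ n r • (lam K σ n).toRingHom.mapMatrix M := by
      intro r M
      ext i k : 1
      simp
    have hml : ∀ f : FreeAlgebra K σ,
        (lam K σ n).toRingHom.mapMatrix (FreeAlgebra.lift K (mat MvPolynomial.X) f) =
          FreeAlgebra.lift K (mat (xx K σ n)) f := by
      intro f
      have h2 := map_lift (lam K σ n) MvPolynomial.X f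
      have h3 : (fun q => lam K σ n (MvPolynomial.X q)) = xx K σ n := by
        funext q
        simp only [lam, MvPolynomial.aeval_X]
      rw [h3] at h2
      exact h2
    rw [map_pow, map_add, map_sum, hsm, map_one] at h1
    simp only [hsm, hml] at h1
    exact h1
  -- undo the conjugation
  have hline2 : IsSc ((lam K σ n γ₀ • (1 : Matrix (Fin n) (Fin n) (RR K σ n)[X]) +
      ∑ j, lam K σ n (γ j) • FreeAlgebra.lift K (mat (zz K σ n)) (g j)) ^ ν) := by
    have hsc : SemiconjBy (HX K σ n)
        (lam K σ n γ₀ • (1 : Matrix (Fin n) (Fin n) (RR K σ n)[X]) +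
          ∑ j, lam K σ n (γ j) • FreeAlgebra.lift K (mat (zz K σ n)) (g j))
        (lam K σ n γ₀ • (1 : Matrix (Fin n) (Fin n) (RR K σ n)[X]) +
          ∑ j, lam K σ n (γ j) • FreeAlgebra.lift K (mat (xx K σ n)) (g j)) := by
      rw [SemiconjBy, mul_add, add_mul, Finset.mul_sum, Finset.sum_mul, mul_smul_comm,
        smul_mul_assoc, mul_one, one_mul]
      congr 1
      refine Finset.sum_congr rfl fun j _ => ?_
      rw [mul_smul_comm, smul_mul_assoc, (semiconj (g j)).eq]
    have hpow := (hsc.pow_right ν).eq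
    obtain ⟨s, hs⟩ := hline
    rw [hs, smul_mul_assoc, one_mul] at hpow
    exact undo hn det_HX_ne_zero s hpow
  have hcore : (fun j => lam K σ n (γ j)) = 0 := by
    refine Dom.core K hn ν hν (fun j => FreeAlgebra.lift K (mat (zz K σ n)) (g j))
      (fun j i => gv n (g j) i) ?_ (inj hcard g hg) (lam K σ n γ₀) _ ?_ hline2
    · intro j
      have h1 : Dom.ev0 (RR K σ n) n (FreeAlgebra.lift K (mat (zz K σ n)) (g j)) =
          ((Polynomial.aeval (0 : RR K σ n)).restrictScalars K :
            (RR K σ n)[X] →ₐ[K] RR K σ n).mapMatrix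
            (FreeAlgebra.lift K (mat (zz K σ n)) (g j)) := by
        ext i k : 1
        simp [Dom.ev0, Polynomial.coeff_zero_eq_eval_zero]
      rw [h1, map_lift]
      have h2 : (fun q => ((Polynomial.aeval (0 : RR K σ n)).restrictScalars K :
            (RR K σ n)[X] →ₐ[K] RR K σ n) (zz K σ n q)) =
          dgR (fun i s => (HH K σ n).det ^ 2 * pt K σ n i s) := by
        funext q
        have h3 : ((Polynomial.aeval (0 : RR K σ n)).restrictScalars K :
            (RR K σ n)[X] →ₐ[K] RR K σ n) (zz K σ n q) =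
            (HH K σ n).det ^ 2 * dgR (pt K σ n) q := by
          simp [zz, yy]
        rw [h3]
        by_cases hq : q.2.1 = q.2.2
        · rw [dgR_pos _ _ hq, dgR_pos _ _ hq]
        · rw [dgR_neg _ _ hq, dgR_neg _ _ hq, mul_zero]
      rw [h2, lift_dgR]
      rfl
    · intro e he
      refine eq_of_pow_eq hn3 ν hν
        (fun i => (lam K σ n γ₀).coeff e + ∑ j, (lam K σ n (γ j)).coeff e * gv n (g j) i) ?_ he
      intro τ i
      rw [map_add, map_sum, coeff_perm τ γ₀]
      congr 1
      refine Finset.sum_congr rfl fun j _ => ?_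
      rw [map_mul, coeff_perm τ (γ j), gv_perm]
  intro j
  apply lam_injective (K := K) (σ := σ) (n := n)
  rw [map_zero]
  exact congrFun hcore j

end

end Pool.Agent.R163.FT.Conj
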