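import Mathlib

/-! Powers of a matrix over `K[X]` which is a scalar matrix modulo `X`. -/

set_option autoImplicit false

namespace Pool.Agent.R163.FT

open Polynomial

section IsSc

variable {R : Type*} [CommRing R] {n : ℕ}

/-- A scalar matrix. -/
def IsSc (M : Matrix (Fin n) (Fin n) R) : Prop := ∃ s : R, M = s • (1 : Matrix (Fin n) (Fin n) R)

theorem isSc_iff (hn : 0 < n) (M : Matrix (Fin n) (Fin n) R) :
    IsSc M ↔ (∀ i j, i ≠ j → M i j = 0) ∧ ∀ i j, M i i = M j j := by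
  constructor
  · rintro ⟨s, rfl⟩
    refine ⟨fun i j hij => ?_, fun i j => ?_⟩
    · rw [Matrix.smul_apply, Matrix.one_apply_ne hij, smul_zero]
    · rw [Matrix.smul_apply, Matrix.smul_apply, Matrix.one_apply_eq, Matrix.one_apply_eq]
  · rintro ⟨h1, h2⟩
    refine ⟨M ⟨0, hn⟩ ⟨0, hn⟩, ?_⟩
    ext i j
    rw [Matrix.smul_apply]
    by_cases hij : i = j
    · subst hij
      rw [Matrix.one_apply_eq, smul_eq_mul, mul_one]
      exact h2 _ _
    · rw [Matrix.one_apply_ne hij, smul_zero]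
      exact h1 i j hij

theorem IsSc.of_smul [IsDomain R] (hn : 0 < n) {M : Matrix (Fin n) (Fin n) R} {r : R}
    (hr : r ≠ 0) (h : IsSc (r • M)) : IsSc M := by
  rw [isSc_iff hn] at h ⊢
  refine ⟨fun i j hij => ?_, fun i j => ?_⟩
  · have := h.1 i j hij
    rw [Matrix.smul_apply, smul_eq_mul] at this
    exact (mul_eq_zero.1 this).resolve_left hr
  · have := h.2 i j
    rw [Matrix.smul_apply, Matrix.smul_apply, smul_eq_mul, smul_eq_mul] at this
    exact mul_left_cancel₀ hr this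

theorem IsSc.map {S : Type*} [CommRing S] (f : R →+* S) {M : Matrix (Fin n) (Fin n) R}
    (h : IsSc M) : IsSc (f.mapMatrix M) := by
  obtain ⟨s, rfl⟩ := h
  refine ⟨f s, ?_⟩
  ext i j
  by_cases hij : i = j
  · subst hij
    simp [RingHom.mapMatrix_apply]
  · simp [RingHom.mapMatrix_apply, Matrix.one_apply_ne hij]

theorem IsSc.sub {M N : Matrix (Fin n) (Fin n) R} (hM : IsSc M) (hN : IsSc N) :
    IsSc (M - N) := by
  obtain ⟨s, rfl⟩ := hM
  obtain ⟨t, rfl⟩ := hN
  exact ⟨s - t, (sub_smul _ _ _).symm⟩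

end IsSc

section Poly

variable {K : Type*} [Field K]

/-- Take the largest power of `X` out of a finite family of polynomials. -/
theorem factor_X {κ : Type*} (A : κ → K[X]) (hA : ∃ k, A k ≠ 0) :
    ∃ (e : ℕ) (B : κ → K[X]), (∀ k, A k = X ^ e * B k) ∧ ∃ k, (B k).coeff 0 ≠ 0 := by
  classical
  have hex : ∃ e, ∃ k, (A k).coeff e ≠ 0 := by
    obtain ⟨k, hk⟩ := hA
    by_contra hcon
    push Not at hcon
    exact hk (Polynomial.ext fun e => by rw [hcon e k, coeff_zero])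
  have hdvd : ∀ k, X ^ Nat.find hex ∣ A k := by
    intro k
    rw [X_pow_dvd_iff]
    intro d hd
    by_contra hne
    exact Nat.find_min hex hd ⟨k, hne⟩
  choose B hB using hdvd
  refine ⟨Nat.find hex, B, hB, ?_⟩
  obtain ⟨k, hk⟩ := Nat.find_spec hex
  refine ⟨k, fun h0 => hk ?_⟩
  rw [hB k]
  have := coeff_X_pow_mul (B k) (Nat.find hex) 0
  rw [zero_add] at this
  rw [this, h0]

/-- Split an exponent into its Frobenius part and a part invertible in `K`. -/
theorem exists_split (K : Type*) [Field K] (ν : ℕ) (hν : 0 < ν) (n : ℕ) (hn : 0 < n) :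
    ∃ q m : ℕ, ν = q * m ∧ q ≠ 0 ∧ (m : K) ≠ 0 ∧ (∀ x y : K, x ^ q = y ^ q → x = y) ∧
      ∀ M N : Matrix (Fin n) (Fin n) K[X], Commute M N → (M + N) ^ q = M ^ q + N ^ q := by
  have : NeZero n := ⟨hn.ne'⟩
  obtain ⟨p, hp⟩ := ExpChar.exists K
  have hinj : Function.Injective (algebraMap K (Matrix (Fin n) (Fin n) K[X])) :=
    (algebraMap K (Matrix (Fin n) (Fin n) K[X])).injective
  have := expChar_of_injective_algebraMap hinj p
  obtain ⟨k, m, hkm, hm⟩ : ∃ k m : ℕ, ν = p ^ k * m ∧ (m : K) ≠ 0 := by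
    cases hp with
    | zero => exact ⟨0, ν, by simp, by exact_mod_cast hν.ne'⟩
    | prime hprime =>
      obtain ⟨k, m, hm, hkm⟩ := Nat.exists_eq_pow_mul_and_not_dvd hν.ne' p hprime.ne_one
      exact ⟨k, m, hkm, fun h0 => hm ((CharP.cast_eq_zero_iff K p m).1 h0)⟩
  refine ⟨p ^ k, m, hkm, pow_ne_zero _ (expChar_pos K p).ne', hm, fun x y hxy => ?_,
    fun M N hMN => add_pow_expChar_pow_of_commute p k hMN⟩
  have h1 : (x - y) ^ p ^ k = x ^ p ^ k - y ^ p ^ k := sub_pow_expChar_pow _ _ _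
  rw [hxy, sub_self] at h1
  exact sub_eq_zero.1 (pow_eq_zero_iff (pow_ne_zero _ (expChar_pos K p).ne') |>.1 h1)

end Poly

end Pool.Agent.R163.FT
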